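import Pool.Agent.Helper33.DP.Sheet

/-! Rows BDR and ERU (project POLY). -/

set_option autoImplicit false

namespace Pool.Agent.Helper9.PL

open Finset Pool.Agent.Helper33.DP

theorem BDR : ST_BDR := by
  intro w G ρ ρ' β d hG hd hβ hdβ hB hle
  have h1 : ∀ a b, (a, b) ∈ G → 1 / β ≤ ρ a b := by
    intro a b hab
    obtain ⟨σ, hσ, rfl⟩ := hG.edge a b hab
    have h2 := hB.le σ hσ
    have h3 : (ρ a (σ a))⁻¹ ≤ ∑ i, (ρ i (σ i))⁻¹ :=
      single_le_sum (f := fun i => (ρ i (σ i))⁻¹)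
        (fun i _ => (inv_pos.2 (hB.pos _ _ (hσ i))).le) (mem_univ a)
    have h4 := hB.pos _ _ hab
    rw [one_div]
    exact inv_le_of_inv_le₀ h4 (h3.trans h2)
  have hc : 0 < 1 - d * β := by linarith
  have h2 : ∀ a b, (a, b) ∈ G → ρ a b * (1 - d * β) ≤ ρ' a b := by
    intro a b hab
    have h3 := h1 a b hab
    have h4 := hle a b hab
    have h5 : 1 ≤ ρ a b * β := by
      rw [div_le_iff₀ hβ] at h3; exact h3
    nlinarith
  refine ⟨fun a b hab => lt_of_lt_of_le (mul_pos (hB.pos a b hab) hc) (h2 a b hab), ?_⟩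
  intro σ hσ
  have h3 : ∑ i, (ρ' i (σ i))⁻¹ ≤ ∑ i, (ρ i (σ i))⁻¹ / (1 - d * β) := by
    refine sum_le_sum fun i _ => ?_
    have hp := hB.pos _ _ (hσ i)
    calc (ρ' i (σ i))⁻¹ ≤ (ρ i (σ i) * (1 - d * β))⁻¹ :=
          inv_anti₀ (mul_pos hp hc) (h2 _ _ (hσ i))
      _ = (ρ i (σ i))⁻¹ / (1 - d * β) := by rw [mul_inv, div_eq_mul_inv]
  refine h3.trans ?_
  rw [← sum_div]
  exact div_le_div_of_nonneg_right (hB.le σ hσ) hc.le

private theorem nrm_single {w : ℕ} (a : Fin w) : nrm (Pi.single a (1 : ℝ)) = 1 := by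
  unfold nrm
  rw [Finset.sum_eq_single a]
  · simp
  · intro b _ hb; simp [hb]
  · intro h; exact absurd (mem_univ a) h

private theorem Phi_le {w : ℕ} (v : Fin w → ℝ) : Phi v ≤ 2 * w * nrm v := by
  unfold Phi
  calc ∑ x, ∑ y, |v x - v y| ≤ ∑ x, ∑ y, (|v x| + |v y|) :=
        sum_le_sum fun x _ => sum_le_sum fun y _ => abs_sub _ _
    _ = 2 * w * nrm v := by
        simp only [sum_add_distrib, sum_const, card_univ, Fintype.card_fin, nsmul_eq_mul]
        rw [← mul_sum]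
        unfold nrm
        ring

theorem ERU : ST_ERU := by
  intro w δ E hE hδ a b
  have h := hδ (Pi.single a 1) (Pi.single b 1)
  have h1 : ∑ x, ∑ y, (Pi.single a (1 : ℝ) : Fin w → ℝ) x * δ x y * (Pi.single b (1 : ℝ) : Fin w → ℝ) y
      = δ a b := by
    rw [Finset.sum_eq_single a]
    · rw [Finset.sum_eq_single b]
      · simp
      · intro y _ hy; simp [hy]
      · intro h; exact absurd (mem_univ b) h
    · intro x _ hx; simp [hx]
    · intro h; exact absurd (mem_univ a) h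
  rw [h1, nrm_single, nrm_single] at h
  have h2 := Phi_le (Pi.single a (1 : ℝ) : Fin w → ℝ)
  have h3 := Phi_le (Pi.single b (1 : ℝ) : Fin w → ℝ)
  rw [nrm_single] at h2 h3
  nlinarith

end Pool.Agent.Helper9.PL
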