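import Pool.Agent.Helper9.PL.Defs

/-! Doubly stochastic matrices supported in a core; Birkhoff with support. -/

set_option linter.unusedSectionVars false
set_option linter.unusedVariables false

namespace Pool.Agent.Helper9.PL

open Finset

variable {ι : Type*} [Fintype ι] [DecidableEq ι]

/-- Doubly stochastic matrices with support in `G`. -/
def DS (G : Finset (ι × ι)) (D : ι → ι → ℝ) : Prop :=
  (∀ i j, 0 ≤ D i j) ∧ (∀ i, ∑ j, D i j = 1) ∧ (∀ j, ∑ i, D i j = 1) ∧
    ∀ i j, (i, j) ∉ G → D i j = 0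

theorem DS.nonneg {G : Finset (ι × ι)} {D : ι → ι → ℝ} (h : DS G D) (i j : ι) : 0 ≤ D i j := h.1 i j
theorem DS.row {G : Finset (ι × ι)} {D : ι → ι → ℝ} (h : DS G D) (i : ι) : ∑ j, D i j = 1 := h.2.1 i
theorem DS.col {G : Finset (ι × ι)} {D : ι → ι → ℝ} (h : DS G D) (j : ι) : ∑ i, D i j = 1 :=
  h.2.2.1 j
theorem DS.supp {G : Finset (ι × ι)} {D : ι → ι → ℝ} (h : DS G D) {i j : ι} (hij : (i, j) ∉ G) :
    D i j = 0 := h.2.2.2 i j hij

theorem DS.le_one {G : Finset (ι × ι)} {D : ι → ι → ℝ} (h : DS G D) (i j : ι) : D i j ≤ 1 := by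
  rw [← h.row i]
  exact single_le_sum (fun k _ => h.nonneg i k) (mem_univ j)

theorem DS.mono {G G' : Finset (ι × ι)} {D : ι → ι → ℝ} (h : DS G D) (hG : G ⊆ G') : DS G' D :=
  ⟨h.1, h.2.1, h.2.2.1, fun i j hij => h.supp fun h' => hij (hG h')⟩

/-- Transpose of a set of pairs. -/
def tr (G : Finset (ι × ι)) : Finset (ι × ι) := G.image Prod.swap

@[simp] theorem mem_tr {G : Finset (ι × ι)} {a b : ι} : (a, b) ∈ tr G ↔ (b, a) ∈ G := by
  simp only [tr, mem_image, Prod.exists, Prod.swap_prod_mk, Prod.mk.injEq]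
  constructor
  · rintro ⟨c, d, h, rfl, rfl⟩; exact h
  · intro h; exact ⟨b, a, h, rfl, rfl⟩

theorem DS.transpose {G : Finset (ι × ι)} {D : ι → ι → ℝ} (h : DS G D) :
    DS (tr G) (fun i j => D j i) :=
  ⟨fun i j => h.1 j i, fun i => h.2.2.1 i, fun j => h.2.1 j, fun i j hij => h.supp (by simpa using hij)⟩

theorem card_tr (G : Finset (ι × ι)) : (tr G).card = G.card :=
  card_image_of_injective _ Prod.swap_injective

theorem isPM_tr {G : Finset (ι × ι)} {σ : Equiv.Perm ι} : IsPM (tr G) σ ↔ IsPM G σ.symm := by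
  constructor
  · intro h i
    have := h (σ.symm i)
    simpa using this
  · intro h i
    have := h (σ i)
    simpa using this

theorem isCore_tr {G : Finset (ι × ι)} (h : IsCore G) : IsCore (tr G) := by
  refine ⟨h.1.image _, fun e he => ?_⟩
  obtain ⟨a, b⟩ := e
  obtain ⟨σ, h1, h2⟩ := h.2 (b, a) (by simpa using he)
  refine ⟨σ.symm, isPM_tr.2 (by simpa using h1), ?_⟩
  simpa [Equiv.symm_apply_eq] using h2.symm

theorem bdd_tr {G : Finset (ι × ι)} {μ : ι → ι → ℝ} {β : ℝ} (h : Bdd G μ β) :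
    Bdd (tr G) (fun i j => μ j i) β := by
  intro σ hσ
  have := h σ.symm (isPM_tr.1 hσ)
  rw [← Equiv.sum_comp σ] at this
  simpa using this

theorem tr_tr (G : Finset (ι × ι)) : tr (tr G) = G := by
  ext ⟨a, b⟩; simp

/-- Every doubly stochastic matrix with support in `G` is a convex combination of perfect
matchings inside `G`. -/
theorem DS.decomp {G : Finset (ι × ι)} {D : ι → ι → ℝ} (h : DS G D) :
    ∃ wt : Equiv.Perm ι → ℝ, (∀ σ, 0 ≤ wt σ) ∧ ∑ σ, wt σ = 1 ∧ (∀ σ, wt σ ≠ 0 → IsPM G σ) ∧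
      ∀ i j, D i j = ∑ σ, wt σ * (if σ i = j then 1 else 0) := by
  classical
  have hM : (Matrix.of D) ∈ doublyStochastic ℝ ι :=
    mem_doublyStochastic_iff_sum.2 ⟨h.1, h.2.1, h.2.2.1⟩
  obtain ⟨wt, h1, h2, h3⟩ := exists_eq_sum_perm_of_mem_doublyStochastic hM
  have h4 : ∀ i j, D i j = ∑ σ, wt σ * (if σ i = j then 1 else 0) := by
    intro i j
    have := congrFun (congrFun h3 i) j
    rw [Matrix.of_apply] at this
    rw [← this, Matrix.sum_apply]
    refine sum_congr rfl fun σ _ => ?_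
    rw [Matrix.smul_apply, smul_eq_mul]
    congr 1
    simp [Equiv.Perm.permMatrix, PEquiv.toMatrix_apply, Equiv.toPEquiv_apply, eq_comm]
  refine ⟨wt, h1, h2, ?_, h4⟩
  intro σ hσ i
  by_contra hn
  have h5 := h.supp hn
  rw [h4] at h5
  have h6 := (sum_eq_zero_iff_of_nonneg (fun τ _ => mul_nonneg (h1 τ) (by split_ifs <;> norm_num))).1
    h5 σ (mem_univ σ)
  simp at h6
  exact hσ h6

theorem DS.bound {G : Finset (ι × ι)} {D : ι → ι → ℝ} (h : DS G D) (f : ι → ι → ℝ) {β : ℝ}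
    (hf : ∀ σ : Equiv.Perm ι, IsPM G σ → ∑ i, f i (σ i) ≤ β) :
    ∑ i, ∑ j, D i j * f i j ≤ β := by
  obtain ⟨wt, h1, h2, h3, h4⟩ := h.decomp
  have : ∑ i, ∑ j, D i j * f i j = ∑ σ, wt σ * ∑ i, f i (σ i) := by
    calc ∑ i, ∑ j, D i j * f i j = ∑ i, ∑ j, ∑ σ, wt σ * ((if σ i = j then 1 else 0) * f i j) := by
          refine sum_congr rfl fun i _ => sum_congr rfl fun j _ => ?_
          rw [h4, sum_mul]; exact sum_congr rfl fun σ _ => by ring
      _ = ∑ σ, ∑ i, ∑ j, wt σ * ((if σ i = j then 1 else 0) * f i j) := by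
          rw [sum_comm (s := (univ : Finset (Equiv.Perm ι)))]
          refine sum_congr rfl fun i _ => ?_
          rw [sum_comm]
      _ = ∑ σ, wt σ * ∑ i, f i (σ i) := by
          refine sum_congr rfl fun σ _ => ?_
          rw [mul_sum]
          refine sum_congr rfl fun i _ => ?_
          rw [← mul_sum]
          simp
  rw [this]
  calc ∑ σ, wt σ * ∑ i, f i (σ i) ≤ ∑ σ, wt σ * β := by
        refine sum_le_sum fun σ _ => ?_
        by_cases hσ : wt σ = 0
        · simp [hσ]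
        · exact mul_le_mul_of_nonneg_left (hf σ (h3 σ hσ)) (h1 σ)
    _ = β := by rw [← sum_mul, h2, one_mul]

/-- The matrix of a perfect matching. -/
theorem DS.perm {G : Finset (ι × ι)} {σ : Equiv.Perm ι} (h : IsPM G σ) :
    DS G (fun i j => if σ i = j then 1 else 0) := by
  refine ⟨fun i j => by dsimp only; split_ifs <;> norm_num, fun i => by simp, fun j => ?_, ?_⟩
  · rw [← Equiv.sum_comp σ.symm]; simp
  · intro i j hij
    have : σ i ≠ j := by rintro rfl; exact hij (h i)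
    simp [this]

/-- Convex combinations. -/
theorem DS.sum {G : Finset (ι × ι)} {α : Type*} (s : Finset α) (θ : α → ℝ)
    (D : α → ι → ι → ℝ) (h0 : ∀ a ∈ s, 0 ≤ θ a) (h1 : ∑ a ∈ s, θ a = 1) (hD : ∀ a ∈ s, DS G (D a)) :
    DS G (fun i j => ∑ a ∈ s, θ a * D a i j) := by
  refine ⟨fun i j => sum_nonneg fun a ha => mul_nonneg (h0 a ha) ((hD a ha).nonneg i j),
    fun i => ?_, fun j => ?_, fun i j hij => sum_eq_zero fun a ha => by rw [(hD a ha).supp hij, mul_zero]⟩
  · rw [sum_comm, ← h1]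
    exact sum_congr rfl fun a ha => by rw [← mul_sum, (hD a ha).row, mul_one]
  · rw [sum_comm, ← h1]
    exact sum_congr rfl fun a ha => by rw [← mul_sum, (hD a ha).col, mul_one]

theorem DS.comb {G : Finset (ι × ι)} {D D' : ι → ι → ℝ} (h : DS G D) (h' : DS G D') {a b : ℝ}
    (ha : 0 ≤ a) (hb : 0 ≤ b) (hab : a + b = 1) : DS G (fun i j => a * D i j + b * D' i j) := by
  refine ⟨fun i j => add_nonneg (mul_nonneg ha (h.nonneg i j)) (mul_nonneg hb (h'.nonneg i j)),
    fun i => ?_, fun j => ?_, fun i j hij => by show a * D i j + b * D' i j = 0; rw [h.supp hij, h'.supp hij]; ring⟩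
  · rw [sum_add_distrib, ← mul_sum, ← mul_sum, h.row, h'.row]; linarith
  · rw [sum_add_distrib, ← mul_sum, ← mul_sum, h.col, h'.col]; linarith

/-- Products. -/
theorem DS.mul {G G1 G2 : Finset (ι × ι)} {D1 D2 : ι → ι → ℝ} (h1 : DS G1 D1) (h2 : DS G2 D2)
    (hc : ∀ a x b, (a, x) ∈ G1 → (x, b) ∈ G2 → (a, b) ∈ G) :
    DS G (fun a b => ∑ x, D1 a x * D2 x b) := by
  refine ⟨fun i j => sum_nonneg fun x _ => mul_nonneg (h1.nonneg _ _) (h2.nonneg _ _),
    fun i => ?_, fun j => ?_, fun i j hij => sum_eq_zero fun x _ => ?_⟩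
  · rw [sum_comm]
    rw [← h1.row i]
    exact sum_congr rfl fun x _ => by rw [← mul_sum, h2.row, mul_one]
  · rw [sum_comm]
    rw [← h2.col j]
    exact sum_congr rfl fun x _ => by rw [← sum_mul, h1.col, one_mul]
  · by_cases ha : (i, x) ∈ G1
    · by_cases hb : (x, j) ∈ G2
      · exact absurd (hc i x j ha hb) hij
      · rw [h2.supp hb, mul_zero]
    · rw [h1.supp ha, zero_mul]

/-- A doubly stochastic matrix with entries at least `1 / |G|` on the core `G`. -/
theorem IsCore.exists_ds {G : Finset (ι × ι)} (h : IsCore G) :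
    ∃ D, DS G D ∧ ∀ i j, (i, j) ∈ G → 1 / (G.card : ℝ) ≤ D i j := by
  classical
  choose! σ hσ1 hσ2 using h.2
  have hc : (0 : ℝ) < G.card := by exact_mod_cast h.1.card_pos
  refine ⟨fun i j => ∑ e ∈ G, (1 / (G.card : ℝ)) * (if σ e i = j then 1 else 0),
    DS.sum G (fun _ => 1 / (G.card : ℝ)) (fun e i j => if σ e i = j then 1 else 0)
      (fun e _ => by positivity) ?_ (fun e he => DS.perm (hσ1 e he)), ?_⟩
  · rw [sum_const, nsmul_eq_mul]; field_simp
  · intro i j hij
    have h1 : (1 / (G.card : ℝ)) * (if σ (i, j) i = j then 1 else 0) = 1 / (G.card : ℝ) := by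
      have := hσ2 (i, j) hij
      simp at this
      simp [this]
    refine le_trans h1.ge ?_
    exact single_le_sum (f := fun e => (1 / (G.card : ℝ)) * (if σ e i = j then (1 : ℝ) else 0))
      (fun e _ => mul_nonneg (by positivity) (by split_ifs <;> norm_num)) hij

theorem IsCore.card_le {G : Finset (ι × ι)} : G.card ≤ Fintype.card ι ^ 2 := by
  calc G.card ≤ (univ : Finset (ι × ι)).card := card_le_card (subset_univ G)
    _ = Fintype.card ι ^ 2 := by rw [card_univ, Fintype.card_prod, sq]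

end Pool.Agent.Helper9.PL
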