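import Mathlib

/-! Cores and the bound `Bdd` (project POLY, on-line chain partitions). -/

namespace Pool.Agent.Helper9.PL

variable {ι : Type*} [Fintype ι] [DecidableEq ι]

/-- `σ` is a perfect matching inside `G`. -/
def IsPM (G : Finset (ι × ι)) (σ : Equiv.Perm ι) : Prop := ∀ i, (i, σ i) ∈ G

/-- A core: nonempty, every pair lies in a perfect matching inside `G`. -/
def IsCore (G : Finset (ι × ι)) : Prop :=
  G.Nonempty ∧ ∀ e ∈ G, ∃ σ : Equiv.Perm ι, IsPM G σ ∧ σ e.1 = e.2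

/-- The potential bound. -/
def Bdd (G : Finset (ι × ι)) (μ : ι → ι → ℝ) (β : ℝ) : Prop :=
  ∀ σ : Equiv.Perm ι, IsPM G σ → ∑ i, 1 / μ i (σ i) ≤ β

end Pool.Agent.Helper9.PL
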