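import Mathlib

/-! Minimax lemma for finitely many convex functions on a convex set. -/

namespace Pool.Agent.Helper9.PL

open Finset

/-- If every convex combination of the convex functions `φ j` has a point of `Z` with value at
most `β`, then for each `β' > β` there is one point of `Z` with all `φ j z < β'`. -/
theorem minimax {E : Type*} [AddCommGroup E] [Module ℝ E] {J : Type*} [Fintype J] [Nonempty J]
    {Z : Set E} (hZ : Convex ℝ Z) (φ : J → E → ℝ) (hφ : ∀ j, ConvexOn ℝ Z (φ j)) {β β' : ℝ}
    (hb : β < β')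
    (h : ∀ θ : J → ℝ, (∀ j, 0 ≤ θ j) → ∑ j, θ j = 1 → ∃ z ∈ Z, ∑ j, θ j * φ j z ≤ β) :
    ∃ z ∈ Z, ∀ j, φ j z < β' := by
  classical
  by_contra hcon
  push Not at hcon
  set S : Set (J → ℝ) := {t | ∃ z ∈ Z, ∀ j, φ j z < t j} with hS
  have hSo : IsOpen S := by
    have : S = ⋃ z ∈ Z, Set.pi Set.univ (fun j => Set.Ioi (φ j z)) := by
      ext t; simp [hS]
    rw [this]
    exact isOpen_biUnion fun z _ => isOpen_set_pi Set.finite_univ fun j _ => isOpen_Ioi
  have hSc : Convex ℝ S := by
    rintro t ⟨z, hz, ht⟩ t' ⟨z', hz', ht'⟩ a b ha hb hab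
    refine ⟨a • z + b • z', hZ hz hz' ha hb hab, fun j => ?_⟩
    have h1 := (hφ j).2 hz hz' ha hb hab
    refine lt_of_le_of_lt h1 ?_
    simp only [smul_eq_mul, Pi.add_apply, Pi.smul_apply]
    rcases ha.eq_or_lt with rfl | ha'
    · have : b = 1 := by linarith
      subst this
      simpa using ht' j
    · have := ht j
      have := ht' j
      nlinarith
  have hnot : (fun _ => β' : J → ℝ) ∉ S := by
    rintro ⟨z, hz, hlt⟩
    obtain ⟨j, hj⟩ := hcon z hz
    exact absurd (hlt j) (not_lt.mpr hj)
  obtain ⟨f, hf⟩ := geometric_hahn_banach_open_point hSc hSo hnot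
  -- a point of Z
  obtain ⟨j0⟩ := ‹Nonempty J›
  set e : J → (J → ℝ) := fun j => Pi.single j 1 with he
  have hsum : ∀ t : J → ℝ, f t = ∑ j, t j * f (e j) := by
    intro t
    have : t = ∑ j, t j • e j := by
      ext i
      simp [he, Finset.sum_apply, Pi.single_apply]
    conv_lhs => rw [this]
    rw [map_sum]
    simp
  obtain ⟨z0, hz0, -⟩ := h (e j0) (fun j => by
      by_cases hj : j = j0
      · subst hj; simp [he]
      · simp [he, hj]) (by simp [he])
  have hneg : ∀ j, f (e j) ≤ 0 := by
    intro j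
    by_contra hpos
    push Not at hpos
    -- t0 + s e_j in S
    set t0 : J → ℝ := fun i => φ i z0 + 1 with ht0
    have hmem : ∀ s : ℝ, 0 ≤ s → t0 + s • e j ∈ S := by
      intro s hs
      refine ⟨z0, hz0, fun i => ?_⟩
      have : 0 ≤ (s • e j) i := by
        by_cases hij : i = j
        · subst hij; simpa [he] using hs
        · simp [he, hij]
      simp only [Pi.add_apply, ht0]
      linarith
    set c := f (fun _ => β') - f t0 with hc
    have h1 : ∀ s : ℝ, 0 ≤ s → s * f (e j) < c := by
      intro s hs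
      have := hf _ (hmem s hs)
      rw [map_add, map_smul, smul_eq_mul] at this
      rw [hc]; linarith
    have hcpos : 0 < c := by simpa using h1 0 le_rfl
    have := h1 (c / f (e j)) (by positivity)
    rw [div_mul_cancel₀ _ hpos.ne'] at this
    exact lt_irrefl _ this
  set T := ∑ j, -f (e j) with hT
  have hT0 : 0 ≤ T := Finset.sum_nonneg fun j _ => by linarith [hneg j]
  have hTpos : 0 < T := by
    rcases hT0.eq_or_lt with h0 | h0
    · exfalso
      have hz : ∀ j, f (e j) = 0 := by
        intro j
        have := (Finset.sum_eq_zero_iff_of_nonneg (s := Finset.univ)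
          (f := fun j => -f (e j)) (fun j _ => by linarith [hneg j])).1 h0.symm j (Finset.mem_univ j)
        linarith
      have h2 : ∀ t, f t = 0 := by
        intro t; rw [hsum t]; simp [hz]
      have := hf (fun i => φ i z0 + 1) ⟨z0, hz0, fun i => by simp⟩
      rw [h2, h2] at this
      exact lt_irrefl _ this
    · exact h0
  obtain ⟨z, hz, hle⟩ := h (fun j => -f (e j) / T) (fun j => div_nonneg (by linarith [hneg j]) hT0)
    (by rw [← Finset.sum_div, div_self hTpos.ne'])
  have hδ : 0 < β' - β := by linarith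
  have h3 := hf (fun i => φ i z + (β' - β)) ⟨z, hz, fun i => by
    show φ i z < φ i z + (β' - β); linarith⟩
  rw [hsum, hsum (fun _ => β')] at h3
  have h4 : ∑ j, -f (e j) * φ j z ≤ β * T := by
    have : ∑ j, -f (e j) / T * φ j z = (∑ j, -f (e j) * φ j z) / T := by
      rw [Finset.sum_div]; exact Finset.sum_congr rfl fun j _ => by ring
    rw [this, div_le_iff₀ hTpos] at hle
    exact hle
  have h5 : ∑ j, (φ j z + (β' - β)) * f (e j) = -(∑ j, -f (e j) * φ j z) - (β' - β) * T := by
    rw [hT, Finset.mul_sum, ← Finset.sum_neg_distrib, ← Finset.sum_sub_distrib]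
    exact Finset.sum_congr rfl fun j _ => by ring
  have h6 : ∑ j, β' * f (e j) = - (β' * T) := by
    rw [hT, Finset.mul_sum, ← Finset.sum_neg_distrib]
    exact Finset.sum_congr rfl fun j _ => by ring
  rw [h5, h6] at h3
  nlinarith

end Pool.Agent.Helper9.PL
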